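import Mathlib

/-!
# Finite groups with isomorphic subrack lattices and non-isomorphic conjugation racks

For `m` with `m ^ 3 = 1` in `ℤ / 91` let `G m` be the group of all affine maps `z ↦ m ^ i z + a` of
`ℤ / 91` (a group of order `273`, if `m ≠ 1`). The groups `G 16` and `G 9` have isomorphic subrack
lattices, but their conjugation racks are not isomorphic. (Modulo `7`, both `16` and `9` are equal
to `2`; modulo `13`, the number `16` is equal to `3` and `9` is the square of `3`.)

A subrack which contains a translation by `a` and a rotation (a map with `i ≠ 0`) with centre `P`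
contains the rotations of the same kind with centres `P + n a` for all integers `n`, and a subrack
which contains rotations with centres `P` and `Q` contains rotations with centres `Q + n (Q - P)` for
all integers `n`. So the bijection `G 16 → G 9` which respects the centres and the kinds `i` of the
rotations, and which maps the translations by `a` to the translations by `h a`, where `h a` is a
multiple of `a` and `h` maps the orbits of `z ↦ 16 z` to the orbits of `z ↦ 9 z`, respects subracks.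

An isomorphism of the conjugation racks would map a rotation `x`, a translation `u` of order `7` with
`x u x⁻¹ = u ^ 2` and a translation `v` of order `13` with `x v x⁻¹ = v ^ 3` to elements with
the same properties, because the groups have trivial centre; but `G 9` has no such elements.
-/

namespace Pool.Agent.Results.MP_f3891b_al.SubrackLattices

/-- A subset `S` of the group `G` is a subrack of the conjugation rack `x ▷ y = x y x⁻¹`. -/
def IsSubrack {G : Type} [Group G] (S : Set G) : Prop :=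
  ∀ x ∈ S, ∀ y ∈ S, x * y * x⁻¹ ∈ S

/-- `m ^ i` for `i` modulo `3`. -/
def pw (m : ZMod 91) (i : ZMod 3) : ZMod 91 := m ^ i.val

theorem pw_add {m : ZMod 91} (hm : m ^ 3 = 1) (i j : ZMod 3) : pw m (i + j) = pw m i * pw m j := by
  unfold pw
  rw [← pow_add, ZMod.val_add]
  conv_rhs => rw [← Nat.div_add_mod (i.val + j.val) 3, pow_add, pow_mul, hm, one_pow, one_mul]

theorem pw_zero (m : ZMod 91) : pw m 0 = 1 := by simp [pw]

/-- The map `z ↦ m ^ i z + a`. -/
@[ext] structure G (m : ZMod 91) where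
  a : ZMod 91
  i : ZMod 3

instance (m : ZMod 91) : Finite (G m) :=
  Finite.of_injective (fun x : G m => (x.a, x.i)) (by
    intro x y h
    rw [Prod.mk.injEq] at h
    exact G.ext h.1 h.2)

namespace G

section
variable {m : ZMod 91}

instance : Mul (G m) := ⟨fun x y => ⟨x.a + pw m x.i * y.a, x.i + y.i⟩⟩
instance : One (G m) := ⟨⟨0, 0⟩⟩
instance : Inv (G m) := ⟨fun x => ⟨-(pw m (-x.i) * x.a), -x.i⟩⟩

@[simp] theorem mul_a (x y : G m) : (x * y).a = x.a + pw m x.i * y.a := rfl
@[simp] theorem mul_i (x y : G m) : (x * y).i = x.i + y.i := rfl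
@[simp] theorem one_a : (1 : G m).a = 0 := rfl
@[simp] theorem one_i : (1 : G m).i = 0 := rfl
@[simp] theorem inv_a (x : G m) : (x⁻¹).a = -(pw m (-x.i) * x.a) := rfl
@[simp] theorem inv_i (x : G m) : (x⁻¹).i = -x.i := rfl

end

instance grp (m : ZMod 91) [hm : Fact (m ^ 3 = 1)] : Group (G m) where
  mul_assoc x y z := by
    ext1
    · simp only [mul_a, mul_i, pw_add hm.out]; ring
    · simp only [mul_i]; ring
  one_mul x := by
    ext1
    · simp [pw_zero]
    · simp
  mul_one x := by
    ext1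
    · simp
    · simp
  inv_mul_cancel x := by
    ext1
    · simp
    · simp

variable {m : ZMod 91} [hm : Fact (m ^ 3 = 1)]

theorem pw_neg_mul (i : ZMod 3) : pw m i * pw m (-i) = 1 := by
  rw [← pw_add hm.out, add_neg_cancel, pw_zero]

theorem conj_a (x y : G m) : (x * y * x⁻¹).a = (1 - pw m y.i) * x.a + pw m x.i * y.a := by
  simp only [mul_a, mul_i, inv_a, pw_add hm.out]
  linear_combination (-(pw m y.i * x.a)) * pw_neg_mul (m := m) x.i

omit hm in
theorem conj_i (x y : G m) : (x * y * x⁻¹).i = y.i := by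
  simp only [mul_i, inv_i]; ring

theorem comm_a (x y : G m) :
    (x * y * x⁻¹ * y⁻¹).a = (1 - pw m y.i) * x.a - (1 - pw m x.i) * y.a := by
  rw [mul_a, conj_a, conj_i, inv_a]
  linear_combination (-(y.a)) * pw_neg_mul (m := m) y.i

omit hm in
theorem comm_i (x y : G m) : (x * y * x⁻¹ * y⁻¹).i = 0 := by
  rw [mul_i, conj_i, inv_i, add_neg_cancel]

theorem pow_i (x : G m) (n : ℕ) : (x ^ n).i = n * x.i := by
  induction n with
  | zero => simp
  | succ n ih => rw [pow_succ, mul_i, ih]; push_cast; ring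

theorem pow_a (x : G m) (hx : x.i = 0) (n : ℕ) : (x ^ n).a = n * x.a := by
  induction n with
  | zero => simp
  | succ n ih =>
    rw [pow_succ, mul_a, ih, pow_i, hx, mul_zero, pw_zero]; push_cast; ring

end G

/-- A subrack of a finite group is invariant under conjugation with the elements of the subgroup
which it generates. -/
theorem conj_mem {G : Type} [Group G] [Finite G] {S : Set G} (hS : IsSubrack S) {g : G}
    (hg : g ∈ Subgroup.closure S) : ∀ y ∈ S, g * y * g⁻¹ ∈ S ∧ g⁻¹ * y * g ∈ S := by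
  induction hg using Subgroup.closure_induction with
  | mem s hs =>
    have hp : ∀ n : ℕ, ∀ y ∈ S, s ^ n * y * (s ^ n)⁻¹ ∈ S := by
      intro n
      induction n with
      | zero => intro y hy; simpa using hy
      | succ n ih =>
        intro y hy
        have h := hS s hs _ (ih y hy)
        have e : s * (s ^ n * y * (s ^ n)⁻¹) * s⁻¹ = s ^ (n + 1) * y * (s ^ (n + 1))⁻¹ := by
          rw [pow_succ']; group
        rwa [e] at h
    intro y hy
    refine ⟨hS s hs y hy, ?_⟩
    have h := hp (orderOf s - 1) y hy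
    have e : s ^ (orderOf s - 1) = s⁻¹ := by
      rw [eq_comm, inv_eq_iff_mul_eq_one, ← pow_succ']
      have : orderOf s - 1 + 1 = orderOf s := Nat.sub_add_cancel (orderOf_pos s)
      rw [this, pow_orderOf_eq_one]
    rwa [e, inv_inv] at h
  | one => intro y hy; simpa using hy
  | mul g h _ _ ihg ihh =>
    intro y hy
    constructor
    · have h1 := (ihg _ (ihh y hy).1).1
      have e : g * (h * y * h⁻¹) * g⁻¹ = g * h * y * (g * h)⁻¹ := by group
      rwa [e] at h1
    · have h1 := (ihh _ (ihg y hy).2).2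
      have e : h⁻¹ * (g⁻¹ * y * g) * h = (g * h)⁻¹ * y * (g * h) := by group
      rwa [e] at h1
  | inv g _ ih =>
    intro y hy
    rw [inv_inv]
    exact ⟨(ih y hy).2, (ih y hy).1⟩

/-- The map `G m → G m'` belonging to `c` and `r`. -/
def F (m m' : ZMod 91) (c : ZMod 91 → ZMod 91) (r : ZMod 3 → ZMod 91) (x : G m) : G m' :=
  ⟨(if x.i = 0 then c x.a else r x.i) * x.a, x.i⟩

theorem key {m m' : ZMod 91} [hm : Fact (m ^ 3 = 1)] [hm' : Fact (m' ^ 3 = 1)]
    {c : ZMod 91 → ZMod 91} {r : ZMod 3 → ZMod 91}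
    (h1 : ∀ i, i ≠ 0 → r i * (1 - pw m i) = 1 - pw m' i)
    (h2 : ∀ i, i ≠ 0 → ∀ b, ∃ k, c (pw m k * b) * (pw m k * b) = pw m' i * (c b * b))
    (h3 : ∀ j, j ≠ 0 → ∃ u, u * (1 - pw m j) = 1) {S : Set (G m)} (hS : IsSubrack S) :
    IsSubrack (F m m' c r '' S) := by
  have hcast : ∀ n : ZMod 91, ((n.val : ℕ) : ZMod 91) = n := fun n => ZMod.natCast_zmod_val n
  rintro _ ⟨x, hx, rfl⟩ _ ⟨y, hy, rfl⟩
  have hcl : ∀ g ∈ Subgroup.closure S, g * y * g⁻¹ ∈ S := fun g hg => (conj_mem hS hg y hy).1
  have hxc : x ∈ Subgroup.closure S := Subgroup.subset_closure hx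
  have hyc : y ∈ Subgroup.closure S := Subgroup.subset_closure hy
  by_cases hyi : y.i = 0
  · by_cases hxi : x.i = 0
    · refine ⟨y, hy, ?_⟩
      ext1
      · rw [G.conj_a]
        simp only [F, hxi, hyi, if_true, pw_zero]
        ring
      · rw [G.conj_i]
    · obtain ⟨k, hk⟩ := h2 _ hxi y.a
      have hi : ((k * x.i).val : ZMod 3) * x.i = k := by
        rw [ZMod.natCast_zmod_val]
        have : ∀ i k : ZMod 3, i ≠ 0 → k * i * i = k := by decide +kernel
        exact this _ _ hxi
      refine ⟨x ^ (k * x.i).val * y * (x ^ (k * x.i).val)⁻¹, hcl _ (Subgroup.pow_mem _ hxc _), ?_⟩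
      ext1
      · rw [G.conj_a]
        simp only [F, G.conj_i, G.conj_a, hyi, if_true, if_neg hxi, pw_zero, sub_self, zero_mul,
          zero_add, G.pow_i, hi]
        exact hk
      · rw [G.conj_i]
        simp only [F]
        rw [G.conj_i]
  · obtain ⟨u, hu⟩ := h3 _ hyi
    by_cases hxi : x.i = 0
    · refine ⟨x ^ (c x.a).val * y * (x ^ (c x.a).val)⁻¹, hcl _ (Subgroup.pow_mem _ hxc _), ?_⟩
      ext1
      · rw [G.conj_a]
        simp only [F, G.conj_i, G.conj_a, if_neg hyi, hxi, if_true, G.pow_i, G.pow_a _ hxi,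
          mul_zero, pw_zero, hcast]
        linear_combination (c x.a * x.a) * h1 _ hyi
      · rw [G.conj_i]
        simp only [F]
        rw [G.conj_i]
    · set n : ZMod 91 := r x.i * u with hn
      set g := (x * y * x⁻¹ * y⁻¹) ^ n.val with hg
      have hgi : g.i = 0 := by rw [hg, G.pow_i, G.comm_i, mul_zero]
      have hga : g.a = n * ((1 - pw m y.i) * x.a - (1 - pw m x.i) * y.a) := by
        rw [hg, G.pow_a _ (G.comm_i x y), G.comm_a, hcast]
      refine ⟨g * y * g⁻¹, hcl _ (Subgroup.pow_mem _ (Subgroup.mul_mem _ (Subgroup.mul_mem _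
        (Subgroup.mul_mem _ hxc hyc) (Subgroup.inv_mem _ hxc)) (Subgroup.inv_mem _ hyc)) _), ?_⟩
      ext1
      · rw [G.conj_a]
        simp only [F, G.conj_i, G.conj_a, if_neg hyi, if_neg hxi, hgi, hga, pw_zero, hn]
        linear_combination (r x.i * u * ((1 - pw m y.i) * x.a - (1 - pw m x.i) * y.a)) * h1 _ hyi
          + ((1 - pw m' y.i) * r x.i * x.a) * hu - ((1 - pw m' y.i) * u * y.a) * h1 _ hxi
          + ((1 - pw m' x.i) * u * y.a) * h1 _ hyi - ((1 - pw m' x.i) * r y.i * y.a) * hu
      · rw [G.conj_i]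
        simp only [F]
        rw [G.conj_i]

/-- The factor in the definition of `h`. -/
def c₁ (a : ZMod 91) : ZMod 91 :=
  if a.val % 7 = 2 ∨ a.val % 7 = 5 then 29 else if a.val % 7 = 4 ∨ a.val % 7 = 3 then 22 else 1

/-- The factor in the definition of the inverse of `h`. -/
def c₂ (a : ZMod 91) : ZMod 91 :=
  if a.val % 7 = 2 ∨ a.val % 7 = 5 then 22 else if a.val % 7 = 4 ∨ a.val % 7 = 3 then 29 else 1

/-- The factors for the rotations. -/
def r₁ (i : ZMod 3) : ZMod 91 := if i = 1 then 43 else 36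

/-- The factors for the rotations, for the inverse map. -/
def r₂ (i : ZMod 3) : ZMod 91 := if i = 1 then 36 else 43

instance : Fact ((16 : ZMod 91) ^ 3 = 1) := ⟨by decide +kernel⟩
instance : Fact ((9 : ZMod 91) ^ 3 = 1) := ⟨by decide +kernel⟩

theorem inv₁ : ∀ (i : ZMod 3) (a : ZMod 91),
    (if i = 0 then c₂ ((if i = 0 then c₁ a else r₁ i) * a) else r₂ i) *
      ((if i = 0 then c₁ a else r₁ i) * a) = a := by decide +kernel

theorem inv₂ : ∀ (i : ZMod 3) (a : ZMod 91),
    (if i = 0 then c₁ ((if i = 0 then c₂ a else r₂ i) * a) else r₁ i) *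
      ((if i = 0 then c₂ a else r₂ i) * a) = a := by decide +kernel

/-- The bijection between the two groups. -/
def f : G 16 ≃ G 9 where
  toFun := F 16 9 c₁ r₁
  invFun := F 9 16 c₂ r₂
  left_inv x := by
    ext1
    · exact inv₁ x.i x.a
    · rfl
  right_inv x := by
    ext1
    · exact inv₂ x.i x.a
    · rfl

theorem f_image {S : Set (G 16)} (hS : IsSubrack S) : IsSubrack (f '' S) :=
  key (m := 16) (m' := 9) (by decide +kernel) (by decide +kernel) (by decide +kernel) hS

theorem f_symm_image {S : Set (G 9)} (hS : IsSubrack S) : IsSubrack (f.symm '' S) :=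
  key (m := 9) (m' := 16) (by decide +kernel) (by decide +kernel) (by decide +kernel) hS

/-- The isomorphism of the subrack lattices. -/
def latticeIso : {S : Set (G 16) // IsSubrack S} ≃o {S : Set (G 9) // IsSubrack S} where
  toFun S := ⟨f '' S.1, f_image S.2⟩
  invFun S := ⟨f.symm '' S.1, f_symm_image S.2⟩
  left_inv S := Subtype.ext (f.symm_image_image S.1)
  right_inv S := Subtype.ext (f.image_symm_image S.1)
  map_rel_iff' := by
    intro S T
    exact Set.image_subset_image_iff f.injective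

theorem pow_seven {x : G 9} (h : x ^ 7 = 1) : x.i = 0 ∧ 7 * x.a = 0 := by
  have h1 : x.i = 0 := by
    have h2 := congrArg G.i h
    rw [G.pow_i] at h2
    have : ∀ i : ZMod 3, ((7 : ℕ) : ZMod 3) * i = 0 → i = 0 := by decide +kernel
    exact this _ h2
  refine ⟨h1, ?_⟩
  have h2 := congrArg G.a h
  rw [G.pow_a _ h1] at h2
  exact h2

theorem pow_thirteen {x : G 9} (h : x ^ 13 = 1) : x.i = 0 ∧ 13 * x.a = 0 := by
  have h1 : x.i = 0 := by
    have h2 := congrArg G.i h
    rw [G.pow_i] at h2
    have : ∀ i : ZMod 3, ((13 : ℕ) : ZMod 3) * i = 0 → i = 0 := by decide +kernel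
    exact this _ h2
  refine ⟨h1, ?_⟩
  have h2 := congrArg G.a h
  rw [G.pow_a _ h1] at h2
  exact h2

theorem no_pair : ∀ (i : ZMod 3) (a b : ZMod 91), 7 * a = 0 → 13 * b = 0 →
    pw 9 i * a = 2 * a → pw 9 i * b = 3 * b → a = 0 ∨ b = 0 := by
  have h1 : ∀ (i : ZMod 3) (a : ZMod 91), 7 * a = 0 → pw 9 i * a = 2 * a → a = 0 ∨ i = 1 := by
    decide +kernel
  have h2 : ∀ (b : ZMod 91), 13 * b = 0 → pw 9 1 * b = 3 * b → b = 0 := by
    decide +kernel
  intro i a b ha hb h h'
  rcases h1 i a ha h with h3 | rfl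
  · exact Or.inl h3
  · exact Or.inr (h2 b hb h')

/-- The conjugation racks of the two groups are not isomorphic. -/
theorem not_iso : ¬ ∃ g : G 16 ≃ G 9, ∀ x y, g (x * y * x⁻¹) = g x * g y * (g x)⁻¹ := by
  rintro ⟨g, hg⟩
  -- the group `G 9` has trivial centre
  have hcen : ∀ w : G 9, (∀ z, w * z * w⁻¹ = z) → w = 1 := by
    intro w hw
    have h1 := congrArg G.a (hw ⟨0, 1⟩)
    have h2 := congrArg G.a (hw ⟨1, 0⟩)
    rw [G.conj_a] at h1 h2
    have h3 : ∀ (i : ZMod 3) (a : ZMod 91), (1 - pw 9 1) * a + pw 9 i * 0 = 0 →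
        (1 - pw 9 0) * a + pw 9 i * 1 = 1 → a = 0 ∧ i = 0 := by decide +kernel
    obtain ⟨ha, hi⟩ := h3 w.i w.a h1 h2
    exact G.ext ha hi
  -- powers
  have hpow : ∀ (u : G 16) (n : ℕ) (y : G 16), g (u ^ n * y * (u ^ n)⁻¹) =
      g u ^ n * g y * (g u ^ n)⁻¹ := by
    intro u n
    induction n with
    | zero => intro y; simp
    | succ n ih =>
      intro y
      have e1 : u ^ (n + 1) * y * (u ^ (n + 1))⁻¹ = u * (u ^ n * y * (u ^ n)⁻¹) * u⁻¹ := by
        rw [pow_succ']; group
      have e2 : g u ^ (n + 1) * g y * (g u ^ (n + 1))⁻¹ =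
          g u * (g u ^ n * g y * (g u ^ n)⁻¹) * (g u)⁻¹ := by
        rw [pow_succ']; group
      rw [e1, hg, ih, e2]
  -- relations of the form `u ^ n = x u x⁻¹` are preserved
  have hrel : ∀ (x u : G 16) (n : ℕ), u ^ n = x * u * x⁻¹ → g u ^ n = g x * g u * (g x)⁻¹ := by
    intro x u n h
    have h1 : ∀ z : G 9, ((g x * g u * (g x)⁻¹)⁻¹ * g u ^ n) * z *
        ((g x * g u * (g x)⁻¹)⁻¹ * g u ^ n)⁻¹ = z := by
      intro z
      obtain ⟨y, rfl⟩ := g.surjective z
      have h2 := hpow u n y
      rw [h, hg, hg] at h2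
      calc ((g x * g u * (g x)⁻¹)⁻¹ * g u ^ n) * g y * ((g x * g u * (g x)⁻¹)⁻¹ * g u ^ n)⁻¹
          = (g x * g u * (g x)⁻¹)⁻¹ * (g u ^ n * g y * (g u ^ n)⁻¹) * (g x * g u * (g x)⁻¹) := by
            group
        _ = (g x * g u * (g x)⁻¹)⁻¹ * ((g x * g u * (g x)⁻¹) * g y * (g x * g u * (g x)⁻¹)⁻¹) *
            (g x * g u * (g x)⁻¹) := by rw [h2]
        _ = g y := by group
    have h3 := hcen _ h1
    rw [inv_mul_eq_one] at h3
    exact h3.symm
  have hone : ∀ (u : G 16) (n : ℕ), u ^ n = 1 → g u ^ n = 1 := by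
    intro u n h
    apply hcen
    intro z
    obtain ⟨y, rfl⟩ := g.surjective z
    rw [← hpow u n y, h]
    simp
  have hg1 : g 1 = 1 := by
    apply hcen
    intro z
    obtain ⟨y, rfl⟩ := g.surjective z
    rw [← hg]
    simp
  -- the elements
  let x : G 16 := ⟨0, 1⟩
  let u : G 16 := ⟨13, 0⟩
  let v : G 16 := ⟨7, 0⟩
  have hu : u ^ 2 = x * u * x⁻¹ := by
    ext1
    · rw [G.pow_a _ rfl, G.conj_a]; decide +kernel
    · rw [G.pow_i, G.conj_i]; decide +kernel
  have hv : v ^ 3 = x * v * x⁻¹ := by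
    ext1
    · rw [G.pow_a _ rfl, G.conj_a]; decide +kernel
    · rw [G.pow_i, G.conj_i]; decide +kernel
  have hu7 : u ^ 7 = 1 := by
    ext1
    · rw [G.pow_a _ rfl]; decide +kernel
    · rw [G.pow_i]; decide +kernel
  have hv13 : v ^ 13 = 1 := by
    ext1
    · rw [G.pow_a _ rfl]; decide +kernel
    · rw [G.pow_i]; decide +kernel
  have hu1 : u ≠ 1 := by
    intro h
    have h1 : (13 : ZMod 91) = 0 := congrArg G.a h
    exact absurd h1 (by decide +kernel)
  have hv1 : v ≠ 1 := by
    intro h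
    have h1 : (7 : ZMod 91) = 0 := congrArg G.a h
    exact absurd h1 (by decide +kernel)
  obtain ⟨hUi, hUa⟩ := pow_seven (hone u 7 hu7)
  obtain ⟨hVi, hVa⟩ := pow_thirteen (hone v 13 hv13)
  have hU := congrArg G.a (hrel x u 2 hu)
  have hV := congrArg G.a (hrel x v 3 hv)
  rw [G.pow_a _ hUi, G.conj_a, hUi, pw_zero, sub_self, zero_mul, zero_add] at hU
  rw [G.pow_a _ hVi, G.conj_a, hVi, pw_zero, sub_self, zero_mul, zero_add] at hV
  rcases no_pair (g x).i (g u).a (g v).a hUa hVa hU.symm hV.symm with h | h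
  · apply hu1
    apply g.injective
    rw [hg1]
    exact G.ext h hUi
  · apply hv1
    apply g.injective
    rw [hg1]
    exact G.ext h hVi

/-- **There are finite groups `G` and `H`** (of order `273`) **whose subrack lattices are isomorphic
while their conjugation racks are not isomorphic.** The subrack lattice of a group is the set of all
its subracks, ordered by inclusion; an isomorphism of lattices is the same as an isomorphism of
ordered sets. -/
theorem result : ∃ (G H : Type) (_ : Group G) (_ : Group H), Finite G ∧ Finite H ∧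
    Nonempty ({S : Set G // IsSubrack S} ≃o {S : Set H // IsSubrack S}) ∧
    ¬ ∃ f : G ≃ H, ∀ x y, f (x * y * x⁻¹) = f x * f y * (f x)⁻¹ :=
  ⟨G 16, G 9, inferInstance, inferInstance, inferInstance, inferInstance, ⟨latticeIso⟩, not_iso⟩

end Pool.Agent.Results.MP_f3891b_al.SubrackLattices
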